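import Pool.Agent.Lib.helper21.Queue

/-! Typed graphs whose joint embeddings encode runs of a counter machine. -/

namespace Pool.Agent.H.MP_451b27_lc

open Pool.Agent.Lib.helper21.While Pool.Agent.Lib.helper21.Mach Function

abbrev Col (Q : Type) (K : ℕ) : Type := (Q × Bool) ⊕ Fin K
abbrev Ty (Q : Type) (K : ℕ) : Type := (Bool × ZMod 3) ⊕ Bool ⊕ Col Q K

variable {Q : Type} {K : ℕ} {V : Type}

section defs
variable (t : Ty Q K → V → Prop) (e : V → V → Prop)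

def sc (s : Bool) (a b : V) : Prop := ∃ k, t (.inl (s, k)) a ∧ t (.inl (s, k + 1)) b ∧ e a b
def st (c : Col Q K) (a b : V) : Prop :=
  (∃ k, t (.inl (false, k)) a) ∧ t (.inr (.inr c)) b ∧ e a b
def og (s : Bool) (o a : V) : Prop := t (.inr (.inl s)) o ∧ t (.inl (s, 0)) a ∧ e o a
def lk (s : Bool) (a b : V) : Prop := sc t e s a b ∨ (s = false ∧ ∃ c, st t e c a b)

def ht (s : Bool) : ℕ → V → Prop
  | 0, a => ∃ o, og t e s o a
  | j + 1, a => ∃ u, ht s j u ∧ sc t e s u a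

end defs

structure Phi (M : CM Q) (ρ : Q → Fin K) (q0 : Q) (r0 : Fin K) (t : Ty Q K → V → Prop)
    (e : V → V → Prop) (a0 a1 a2 a3 a4 a5 a6 a7 : V) : Prop where
  t1 : ∀ c c', t c a0 → t c' a0 → c = c'
  t2 : ∀ c, t c a0 → t c a1 → ¬e a0 a1
  u0 : ∀ c, ∀ k k', t (.inl (false, k)) a0 → t (.inl (false, k')) a1 → t (.inr (.inr c)) a2 →
    e a0 a2 → e a1 a2 → k = k'
  u1 : ∀ s, og t e s a2 a0 → ¬sc t e s a1 a0
  u2 : ∀ s, lk t e s a0 a2 → lk t e s a1 a2 → sc t e s a3 a0 → e a3 a1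
  u3 : ∀ s, lk t e s a0 a2 → lk t e s a1 a2 → og t e s a3 a0 → e a3 a1
  c1 : ∀ β, og t e true a2 a0 → og t e false a1 a3 → st t e (.inr (ρ q0)) a3 a6 →
    (β = true ↔ ¬e a0 a6) → st t e (.inl (q0, β)) a3 a5 → e a0 a5
  c2 : ∀ r, r ≠ r0 → og t e true a2 a0 → st t e (.inr r) a3 a5 → ¬e a0 a5
  c3 : ∀ a k, t (.inl (true, k)) a0 → sc t e false a3 a4 → st t e (.inl a) a3 a5 →
    st t e (.inl a) a4 a6 → e a0 a5 → e a0 a6
  c4 : ∀ q β k, M.nxt q β = none → t (.inl (true, k)) a0 → st t e (.inl (q, β)) a3 a5 → ¬e a0 a5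
  c5 : ∀ q β q' β', M.nxt q β = some q' → sc t e true a0 a1 → og t e false a2 a3 →
    st t e (.inl (q, β)) a3 a5 → e a0 a5 → st t e (.inr (ρ q')) a3 a6 → (β' = true ↔ ¬e a1 a6) →
    st t e (.inl (q', β')) a3 a7 → e a1 a7
  c6 : ∀ q β r, (M.eff q β = none ∨ r ≠ ρ q) → sc t e true a0 a1 → st t e (.inl (q, β)) a3 a5 →
    e a0 a5 → st t e (.inr r) a3 a6 → (e a1 a6 ↔ e a0 a6)
  c7 : ∀ q β, M.eff q β = some true → sc t e true a0 a1 → st t e (.inl (q, β)) a3 a5 → e a0 a5 →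
    sc t e false a3 a4 → st t e (.inr (ρ q)) a3 a6 → st t e (.inr (ρ q)) a4 a7 →
    (e a1 a7 ↔ e a0 a6)
  c8 : ∀ q β, M.eff q β = some true → sc t e true a0 a1 → og t e false a2 a3 →
    st t e (.inl (q, β)) a3 a5 → e a0 a5 → st t e (.inr (ρ q)) a3 a6 → e a1 a6
  c9 : ∀ q β, M.eff q β = some false → sc t e true a0 a1 → st t e (.inl (q, β)) a3 a5 → e a0 a5 →
    sc t e false a3 a4 → st t e (.inr (ρ q)) a3 a6 → st t e (.inr (ρ q)) a4 a7 →
    (e a1 a6 ↔ e a0 a7)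

def PhiI (r0 : Fin K) (n : ℕ) (t : Ty Q K → V → Prop) (e : V → V → Prop) (x o o' w : V)
    (v : ℕ → V) : Prop :=
  og t e true o x → (∀ j < n, sc t e false (v j) (v (j + 1))) →
    (st t e (.inr r0) (v n) w → ¬e x w) ∧
      (og t e false o' (v 0) → ∀ j < n, st t e (.inr r0) (v j) w → e x w)

section transfer

variable {V' : Type} {t : Ty Q K → V → Prop} {e : V → V → Prop} {t' : Ty Q K → V' → Prop}
  {e' : V' → V' → Prop} {g : V → V'} {P : V → Prop}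
  (h1 : ∀ c u, P u → t c u → t' c (g u)) (h2 : ∀ u v, P u → P v → (e u v ↔ e' (g u) (g v)))

include h1 h2

theorem sc_tr {s a b} (pa : P a) (pb : P b) : sc t e s a b → sc t' e' s (g a) (g b) :=
  fun ⟨k, x, y, z⟩ => ⟨k, h1 _ _ pa x, h1 _ _ pb y, (h2 _ _ pa pb).1 z⟩

theorem st_tr {c a b} (pa : P a) (pb : P b) : st t e c a b → st t' e' c (g a) (g b) :=
  fun ⟨⟨k, x⟩, y, z⟩ => ⟨⟨k, h1 _ _ pa x⟩, h1 _ _ pb y, (h2 _ _ pa pb).1 z⟩

theorem og_tr {s a b} (pa : P a) (pb : P b) : og t e s a b → og t' e' s (g a) (g b) :=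
  fun ⟨x, y, z⟩ => ⟨h1 _ _ pa x, h1 _ _ pb y, (h2 _ _ pa pb).1 z⟩

theorem lk_tr {s a b} (pa : P a) (pb : P b) : lk t e s a b → lk t' e' s (g a) (g b) :=
  Or.imp (sc_tr h1 h2 pa pb) fun ⟨x, c, y⟩ => ⟨x, c, st_tr h1 h2 pa pb y⟩

theorem Phi.tr {M : CM Q} {ρ : Q → Fin K} {q0 : Q} {r0 : Fin K} {a0 a1 a2 a3 a4 a5 a6 a7 : V}
    (p0 : P a0) (p1 : P a1) (p2 : P a2) (p3 : P a3) (p4 : P a4) (p5 : P a5) (p6 : P a6)
    (p7 : P a7)
    (h : Phi M ρ q0 r0 t' e' (g a0) (g a1) (g a2) (g a3) (g a4) (g a5) (g a6) (g a7)) :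
    Phi M ρ q0 r0 t e a0 a1 a2 a3 a4 a5 a6 a7 := by
  have S := @sc_tr _ _ _ _ _ _ _ _ _ _ h1 h2
  have T := @st_tr _ _ _ _ _ _ _ _ _ _ h1 h2
  have O := @og_tr _ _ _ _ _ _ _ _ _ _ h1 h2
  have L := @lk_tr _ _ _ _ _ _ _ _ _ _ h1 h2
  refine ⟨fun c c' x y => h.t1 c c' (h1 _ _ p0 x) (h1 _ _ p0 y),
    fun c x y => by rw [h2 _ _ p0 p1]; exact h.t2 c (h1 _ _ p0 x) (h1 _ _ p1 y),
    fun c k k' x y z u v => h.u0 c k k' (h1 _ _ p0 x) (h1 _ _ p1 y) (h1 _ _ p2 z)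
      ((h2 _ _ p0 p2).1 u) ((h2 _ _ p1 p2).1 v),
    fun s x y => h.u1 s (O p2 p0 x) (S p1 p0 y),
    fun s x y z => (h2 _ _ p3 p1).2 (h.u2 s (L p0 p2 x) (L p1 p2 y) (S p3 p0 z)),
    fun s x y z => (h2 _ _ p3 p1).2 (h.u3 s (L p0 p2 x) (L p1 p2 y) (O p3 p0 z)),
    fun β x y z u v => (h2 _ _ p0 p5).2
      (h.c1 β (O p2 p0 x) (O p1 p3 y) (T p3 p6 z) (by rwa [← h2 _ _ p0 p6]) (T p3 p5 v)),
    fun r hr x y => by rw [h2 _ _ p0 p5]; exact h.c2 r hr (O p2 p0 x) (T p3 p5 y),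
    fun a k x y z u v => (h2 _ _ p0 p6).2
      (h.c3 a k (h1 _ _ p0 x) (S p3 p4 y) (T p3 p5 z) (T p4 p6 u) ((h2 _ _ p0 p5).1 v)),
    fun q β k hq x y => by rw [h2 _ _ p0 p5]; exact h.c4 q β k hq (h1 _ _ p0 x) (T p3 p5 y),
    fun q β q' β' hq x y z u v w k => (h2 _ _ p1 p7).2
      (h.c5 q β q' β' hq (S p0 p1 x) (O p2 p3 y) (T p3 p5 z) ((h2 _ _ p0 p5).1 u) (T p3 p6 v)
        (by rwa [← h2 _ _ p1 p6]) (T p3 p7 k)),
    fun q β r hq x y z u => by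
      rw [h2 _ _ p1 p6, h2 _ _ p0 p6]
      exact h.c6 q β r hq (S p0 p1 x) (T p3 p5 y) ((h2 _ _ p0 p5).1 z) (T p3 p6 u),
    fun q β hq x y z u v w => by
      rw [h2 _ _ p1 p7, h2 _ _ p0 p6]
      exact h.c7 q β hq (S p0 p1 x) (T p3 p5 y) ((h2 _ _ p0 p5).1 z) (S p3 p4 u) (T p3 p6 v)
        (T p4 p7 w),
    fun q β hq x y z u v => (h2 _ _ p1 p6).2
      (h.c8 q β hq (S p0 p1 x) (O p2 p3 y) (T p3 p5 z) ((h2 _ _ p0 p5).1 u) (T p3 p6 v)),
    fun q β hq x y z u v w => by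
      rw [h2 _ _ p1 p6, h2 _ _ p0 p7]
      exact h.c9 q β hq (S p0 p1 x) (T p3 p5 y) ((h2 _ _ p0 p5).1 z) (S p3 p4 u) (T p3 p6 v)
        (T p4 p7 w)⟩

theorem PhiI.tr {r0 : Fin K} {n : ℕ} {x o o' w : V} {v : ℕ → V} {v' : ℕ → V'} (p0 : P x)
    (p1 : P o) (p2 : P o') (p3 : P w) (p4 : ∀ j ≤ n, P (v j)) (p5 : ∀ j ≤ n, v' j = g (v j))
    (h : PhiI r0 n t' e' (g x) (g o) (g o') (g w) v') : PhiI r0 n t e x o o' w v := by
  intro a b
  have := h (og_tr h1 h2 p1 p0 a) fun j hj => by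
    rw [p5 j hj.le, p5 (j + 1) hj]
    exact sc_tr h1 h2 (p4 j hj.le) (p4 _ hj) (b j hj)
  rw [p5 n le_rfl, p5 0 (Nat.zero_le _), ← h2 _ _ p0 p3] at this
  refine ⟨fun c => this.1 (st_tr h1 h2 (p4 n le_rfl) p3 c), fun c j hj d => this.2
    (og_tr h1 h2 p2 (p4 0 (Nat.zero_le _)) c) j hj ?_⟩
  rw [p5 j hj.le]
  exact st_tr h1 h2 (p4 j hj.le) p3 d

end transfer

section fwd

variable {M : CM Q} {ρ : Q → Fin K} {q0 : Q} {r0 : Fin K} {t : Ty Q K → V → Prop}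
  {e : V → V → Prop}

def Rep (M : CM Q) (e : V → V → Prop) (w : ℕ → Col Q K → V) (x : V) (c : Q × St) (N : ℕ) : Prop :=
  (∀ j ≤ N, ∀ r : Fin K, e x (w j (.inr r)) ↔ j < c.2 r) ∧ e x (w 0 (.inl (c.1, M.tst 0 c)))

theorem tst0 (c : Q × St) : M.tst 0 c = true ↔ ¬0 < c.2 (M.reg c.1) := by
  simp [CM.tst, CM.thr]

theorem no_halt (hρ : ∀ q, (ρ q).val = M.reg q) {c : Q × St} (hc : Halts (M.step 0) c) :
    ∃ N, ∀ (V : Type) (t : Ty Q K → V → Prop) (e : V → V → Prop),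
      (∀ a0 a1 a2 a3 a4 a5 a6 a7, Phi M ρ q0 r0 t e a0 a1 a2 a3 a4 a5 a6 a7) →
      ∀ (x y : ℕ → V) (w : ℕ → Col Q K → V) (o : V), (∀ i ≤ N, sc t e true (x i) (x (i + 1))) →
      (∀ j < N, sc t e false (y j) (y (j + 1))) → (∀ j ≤ N, ∀ c, st t e c (y j) (w j c)) →
      og t e false o (y 0) → ¬Rep M e w (x 0) c N := by
  induction hc with
  | @stop c h =>
    refine ⟨0, fun V t e H x y w o hx _ hw _ hR => ?_⟩
    obtain ⟨k, h1, -⟩ := hx 0 le_rfl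
    refine (H (x 0) o o (y 0) o _ o o).c4 _ _ k ?_ h1 (hw 0 le_rfl _) hR.2
    simpa [CM.step] using h
  | @go c c' h _ ih =>
    obtain ⟨N, ih⟩ := ih
    refine ⟨N + 1, fun V t e H x y w o hx hy hw ho hR => ?_⟩
    refine ih V t e H (fun i => x (i + 1)) y w o (fun i hi => hx _ (by omega))
      (fun j hj => hy j (by omega)) (fun j hj => hw j (by omega)) ho ?_
    obtain ⟨q', h1, rfl⟩ := Option.map_eq_some_iff.1 h
    have s0 := hx 0 (by omega)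
    have A : ∀ j ≤ N + 1, e (x 0) (w j (.inl (c.1, M.tst 0 c))) := by
      intro j
      induction j with
      | zero => exact fun _ => hR.2
      | succ j ih2 =>
        intro hj
        obtain ⟨k, h1, -⟩ := s0
        exact (H (x 0) o o (y j) (y (j + 1)) _ _ o).c3 _ k h1 (hy j (by omega))
          (hw j (by omega) _) (hw _ hj _) (ih2 (by omega))
    have B : ∀ j ≤ N, ∀ r : Fin K, e (x 1) (w j (.inr r)) ↔
        j < app (M.eff c.1 (M.tst 0 c)) (M.reg c.1) c.2 r := by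
      intro j hj r
      by_cases hr : M.eff c.1 (M.tst 0 c) = none ∨ r ≠ ρ c.1
      · rw [(H (x 0) (x 1) o (y j) o _ _ o).c6 _ _ r hr s0 (hw j (by omega) _) (A j (by omega))
          (hw j (by omega) _), hR.1 j (by omega)]
        rcases hr with hr | hr
        · rw [hr]; rfl
        · have : (r : ℕ) ≠ M.reg c.1 := fun h => hr (Fin.ext (h.trans (hρ _).symm))
          rcases M.eff c.1 (M.tst 0 c) with _ | _ | _ <;> simp [app, update_of_ne this]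
      · rw [not_or, not_not] at hr
        obtain ⟨hr1, rfl⟩ := hr
        rcases he : M.eff c.1 (M.tst 0 c) with _ | _ | _
        · exact (hr1 he).elim
        · rw [(H (x 0) (x 1) o (y j) (y (j + 1)) _ _ _).c9 _ _ he s0 (hw j (by omega) _)
            (A j (by omega)) (hy j (by omega)) (hw j (by omega) _) (hw _ (by omega) _),
            hR.1 _ (by omega), hρ]
          simp only [app, update_self]
          omega
        · rcases j with _ | j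
          · simp only [app, hρ, update_self, Nat.zero_lt_succ, iff_true]
            exact (H (x 0) (x 1) o (y 0) o _ _ o).c8 _ _ he s0 ho (hw 0 (by omega) _)
              (A 0 (by omega)) (hw 0 (by omega) _)
          · rw [(H (x 0) (x 1) o (y j) (y (j + 1)) _ _ _).c7 _ _ he s0 (hw j (by omega) _)
              (A j (by omega)) (hy j (by omega)) (hw j (by omega) _) (hw _ (by omega) _),
              hR.1 _ (by omega), hρ]
            simp only [app, update_self]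
            omega
    refine ⟨B, (H (x 0) (x 1) o (y 0) o _ _ _).c5 _ _ q' _ h1 s0 ho (hw 0 (by omega) _) hR.2
      (hw 0 (by omega) _) ?_ (hw 0 (by omega) _)⟩
    rw [tst0, B 0 (by omega), hρ]

theorem rep_init (hρ : ∀ q, (ρ q).val = M.reg q) (h0 : r0.val = 0) {n N : ℕ}
    (H : ∀ a0 a1 a2 a3 a4 a5 a6 a7, Phi M ρ q0 r0 t e a0 a1 a2 a3 a4 a5 a6 a7)
    (HI : ∀ x o o' w v, PhiI r0 n t e x o o' w v) {x o o' : V} {y : ℕ → V} {w : ℕ → Col Q K → V}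
    (hn : n ≤ N) (hx : og t e true o x) (hy : ∀ j < N, sc t e false (y j) (y (j + 1)))
    (hw : ∀ j ≤ N, ∀ c, st t e c (y j) (w j c)) (ho : og t e false o' (y 0)) :
    Rep M e w x (q0, init n) N := by
  have B : ∀ j ≤ N, ∀ r : Fin K, e x (w j (.inr r)) ↔ j < init n r := by
    intro j hj r
    by_cases hr : r = r0
    · subst hr
      rw [h0, init, update_self]
      by_cases hjn : j < n
      · simp only [hjn, iff_true]
        exact (HI x o o' _ y hx fun j hj => hy j (by omega)).2 ho j hjn (hw j hj _)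
      · simp only [hjn, iff_false]
        refine (HI x o o' _ (fun i => y (j - n + i)) hx fun i hi => hy _ (by omega)).1 ?_
        have : j - n + n = j := by omega
        show st t e _ (y (j - n + n)) _
        rw [this]
        exact hw j hj _
    · have : (r : ℕ) ≠ 0 := fun h => hr (Fin.ext (h.trans h0.symm))
      simp only [init, update_of_ne this, Nat.not_lt_zero, iff_false]
      exact (H x o o (y j) o _ o o).c2 r hr hx (hw j hj _)
  refine ⟨B, (H x o' o (y 0) o _ _ o).c1 _ hx ho (hw 0 (by omega) _) ?_ (hw 0 (by omega) _)⟩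
  rw [tst0, B 0 (by omega), hρ]

end fwd

end Pool.Agent.H.MP_451b27_lc
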