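import Pool.Agent.H.MP_451b27_lc.A

/-! Joint embedding of typed graphs along an infinite run, and the canonical chains. -/

namespace Pool.Agent.H.MP_451b27_lc

open Pool.Agent.Lib.helper21.While Pool.Agent.Lib.helper21.Mach Function

variable {Q : Type} {K : ℕ} {V I : Type}

def col (M : CM Q) (cfg : ℕ → Q × St) (i j : ℕ) : Col Q K → Prop
  | .inl a => (cfg i).1 = a.1 ∧ M.tst 0 (cfg i) = a.2
  | .inr r => j < (cfg i).2 r

def cr (M : CM Q) (cfg : ℕ → Q × St) (t : Ty Q K → V → Prop) (e : V → V → Prop) (x w : V) : Prop :=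
  ∃ i j c y, ht t e true i x ∧ ht t e false j y ∧ st t e c y w ∧ col M cfg i j c

def jn (M : CM Q) (cfg : ℕ → Q × St) (t : Ty Q K → V → Prop) (e : V → V → Prop) (κ : V → I)
    (u v : V) : Prop := e u v ∨ (κ u ≠ κ v ∧ (cr M cfg t e u v ∨ cr M cfg t e v u))

theorem ht_ty {t : Ty Q K → V → Prop} {e : V → V → Prop} {s j a} (h : ht t e s j a) :
    ∃ k, t (.inl (s, k)) a := by
  cases j with
  | zero => obtain ⟨o, -, h, -⟩ := h; exact ⟨_, h⟩
  | succ j => obtain ⟨u, -, k, -, h, -⟩ := h; exact ⟨_, h⟩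

theorem cr_ty {M : CM Q} {cfg : ℕ → Q × St} {t : Ty Q K → V → Prop} {e : V → V → Prop} {x w : V}
    (h : cr M cfg t e x w) : (∃ k, t (.inl (true, k)) x) ∧ ∃ c, t (.inr (.inr c)) w := by
  obtain ⟨i, j, c, y, h1, -, h2, -⟩ := h
  exact ⟨ht_ty h1, c, h2.2.1⟩

structure Parts (M : CM Q) (ρ : Q → Fin K) (q0 : Q) (r0 : Fin K) (n : ℕ) (t : Ty Q K → V → Prop)
    (e : V → V → Prop) (κ : V → I) : Prop where
  edge : ∀ {u v}, e u v → κ u = κ v
  phi : ∀ a0 a1 a2 a3 a4 a5 a6 a7, κ a1 = κ a0 → κ a2 = κ a0 → κ a3 = κ a0 → κ a4 = κ a0 →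
    κ a5 = κ a0 → κ a6 = κ a0 → κ a7 = κ a0 → Phi M ρ q0 r0 t e a0 a1 a2 a3 a4 a5 a6 a7
  phiI : ∀ x o o' w (v : ℕ → V), κ o = κ x → κ o' = κ x → κ w = κ x → (∀ j ≤ n, κ (v j) = κ x) →
    PhiI r0 n t e x o o' w v

namespace Parts

variable {M : CM Q} {ρ : Q → Fin K} {q0 : Q} {r0 : Fin K} {n : ℕ} {t : Ty Q K → V → Prop}
  {e : V → V → Prop} {κ : V → I} (H : Parts M ρ q0 r0 n t e κ) {cfg : ℕ → Q × St}

include H

theorem T1 {c c' a} (h : t c a) (h' : t c' a) : c = c' :=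
  (H.phi a a a a a a a a rfl rfl rfl rfl rfl rfl rfl).t1 c c' h h'

theorem sck {s a b} (h : sc t e s a b) : κ a = κ b := h.elim fun _ h => H.edge h.2.2
theorem stk {s a b} (h : st t e s a b) : κ a = κ b := H.edge h.2.2
theorem ogk {s a b} (h : og t e s a b) : κ a = κ b := H.edge h.2.2
theorem lkk {s a b} (h : lk t e s a b) : κ a = κ b := h.elim H.sck fun ⟨_, _, h⟩ => H.stk h

theorem lk_ty {s p p' x k} (h : lk t e s p x) (h' : lk t e s p' x) (hp : t (.inl (s, k)) p) :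
    t (.inl (s, k)) p' := by
  rcases h with ⟨a, h1, h2, h3⟩ | ⟨rfl, c, ⟨a, h1⟩, h2, h3⟩ <;>
    rcases h' with ⟨b, g1, g2, g3⟩ | ⟨hs, d, ⟨b, g1⟩, g2, g3⟩
  · have e1 := H.T1 h1 hp
    have e2 := H.T1 h2 g2
    simp only [Sum.inl.injEq, Prod.mk.injEq, true_and, add_left_inj] at e1 e2
    rwa [← e1, e2]
  · cases H.T1 h2 g2
  · cases H.T1 h2 g2
  · have e1 := H.T1 h1 hp
    have e2 := (H.phi p p' x p p p p p ((H.edge g3).trans (H.edge h3).symm) (H.edge h3).symm rfl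
      rfl rfl rfl rfl).u0 c _ _ h1 g1 h2 h3 g3
    rwa [← e1, e2]

theorem lk_ht {s p p' x j} (h : lk t e s p x) (h' : lk t e s p' x) (hp : ht t e s j p) :
    ht t e s j p' := by
  have k1 := (H.lkk h').trans (H.lkk h).symm
  have k2 := (H.lkk h).symm
  cases j with
  | zero =>
    obtain ⟨o, ho⟩ := hp
    exact ⟨o, ho.1, H.lk_ty h h' ho.2.1,
      (H.phi p p' x o p p p p k1 k2 (H.ogk ho) rfl rfl rfl rfl).u3 s h h' ho⟩
  | succ j =>
    obtain ⟨u, h1, h2⟩ := hp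
    have := (H.phi p p' x u p p p p k1 k2 (H.sck h2) rfl rfl rfl rfl).u2 s h h' h2
    obtain ⟨k, a, b, -⟩ := h2
    exact ⟨u, h1, k, a, H.lk_ty h h' b, this⟩

theorem not_og {s u v o} (h : sc t e s u v) (ho : og t e s o v) : False :=
  (H.phi v u o v v v v v (H.sck h) (H.ogk ho) rfl rfl rfl rfl rfl).u1 s ho h

theorem ht_back {s u v j} (h : sc t e s u v) (hv : ht t e s j v) :
    ∃ j', j = j' + 1 ∧ ht t e s j' u := by
  cases j with
  | zero => exact (H.not_og h hv.choose_spec).elim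
  | succ j =>
    obtain ⟨u', h1, h2⟩ := hv
    exact ⟨j, rfl, H.lk_ht (Or.inl h2) (Or.inl h) h1⟩

theorem ht_uniq {s} : ∀ {i j v}, ht t e s i v → ht t e s j v → i = j := by
  intro i
  induction i with
  | zero =>
    intro j v h h'
    cases j with
    | zero => rfl
    | succ j => obtain ⟨u, -, h2⟩ := h'; exact (H.not_og h2 h.choose_spec).elim
  | succ i ih =>
    rintro j v ⟨u, h1, h2⟩ h'
    obtain ⟨j', rfl, h3⟩ := H.ht_back h2 h'
    rw [ih h1 h3]

theorem jn_iff {c c' u v} (hu : t c u) (hv : t c' v)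
    (h1 : ∀ k d, ¬(c = .inl (true, k) ∧ c' = .inr (.inr d)))
    (h2 : ∀ k d, ¬(c' = .inl (true, k) ∧ c = .inr (.inr d))) : jn M cfg t e κ u v ↔ e u v := by
  refine ⟨fun h => ?_, Or.inl⟩
  rcases h with h | ⟨-, h | h⟩
  · exact h
  · obtain ⟨⟨k, a⟩, d, b⟩ := cr_ty h
    exact (h1 k d ⟨H.T1 hu a, H.T1 hv b⟩).elim
  · obtain ⟨⟨k, a⟩, d, b⟩ := cr_ty h
    exact (h2 k d ⟨H.T1 hv a, H.T1 hu b⟩).elim

theorem sc_jn {s a b} (h : sc t (jn M cfg t e κ) s a b) : sc t e s a b :=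
  h.imp fun _ h => ⟨h.1, h.2.1, (H.jn_iff h.1 h.2.1 (by simp) (by simp)).1 h.2.2⟩

theorem st_jn {s a b} (h : st t (jn M cfg t e κ) s a b) : st t e s a b :=
  ⟨h.1, h.2.1, (H.jn_iff h.1.choose_spec h.2.1 (by simp) (by simp)).1 h.2.2⟩

theorem og_jn {s a b} (h : og t (jn M cfg t e κ) s a b) : og t e s a b :=
  ⟨h.1, h.2.1, (H.jn_iff h.1 h.2.1 (by simp) (by simp)).1 h.2.2⟩

theorem lk_jn {s a b} (h : lk t (jn M cfg t e κ) s a b) : lk t e s a b :=
  h.imp H.sc_jn fun ⟨x, c, y⟩ => ⟨x, c, H.st_jn y⟩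

theorem cross {k x c y w} (hx : t (.inl (true, k)) x) (h : st t e c y w) (hk : κ x ≠ κ y) :
    jn M cfg t e κ x w ↔ ∃ i j, ht t e true i x ∧ ht t e false j y ∧ col M cfg i j c := by
  have k1 := H.stk h
  refine ⟨fun h' => ?_, fun ⟨i, j, a, b, d⟩ => Or.inr ⟨k1 ▸ hk, Or.inl ⟨i, j, c, y, a, b, h, d⟩⟩⟩
  rcases h' with h' | ⟨-, ⟨i, j, c', y', a, b, d, f⟩ | h'⟩
  · exact (hk ((H.edge h').trans k1.symm)).elim
  · have := H.T1 d.2.1 h.2.1
    simp only [Sum.inr.injEq] at this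
    subst this
    exact ⟨i, j, a, H.lk_ht (Or.inr ⟨rfl, _, d⟩) (Or.inr ⟨rfl, _, h⟩) b, f⟩
  · obtain ⟨-, d, b⟩ := cr_ty h'
    cases H.T1 hx b

theorem cross' {x c y w i j} (hx : ht t e true i x) (hy : ht t e false j y) (h : st t e c y w)
    (hk : κ x ≠ κ y) : jn M cfg t e κ x w ↔ col M cfg i j c := by
  rw [H.cross (ht_ty hx).choose_spec h hk]
  refine ⟨fun ⟨i', j', a, b, d⟩ => ?_, fun d => ⟨i, j, hx, hy, d⟩⟩
  rwa [H.ht_uniq hx a, H.ht_uniq hy b]

theorem loc_iff {i : I} (u v : V) (hu : κ u = i) (hv : κ v = i) : jn M cfg t e κ u v ↔ e u v :=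
  ⟨fun h => h.elim id fun h => (h.1 (hu.trans hv.symm)).elim, Or.inl⟩

theorem loc (a0 a1 a2 a3 a4 a5 a6 a7 : V) (p1 : κ a1 = κ a0) (p2 : κ a2 = κ a0)
    (p3 : κ a3 = κ a0) (p4 : κ a4 = κ a0) (p5 : κ a5 = κ a0) (p6 : κ a6 = κ a0)
    (p7 : κ a7 = κ a0) : Phi M ρ q0 r0 t (jn M cfg t e κ) a0 a1 a2 a3 a4 a5 a6 a7 :=
  Phi.tr (g := id) (P := fun u => κ u = κ a0) (fun _ _ _ h => h) H.loc_iff rfl p1 p2 p3 p4 p5 p6 p7
    (H.phi _ _ _ _ _ _ _ _ p1 p2 p3 p4 p5 p6 p7)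

theorem join (hρ : ∀ q, (ρ q).val = M.reg q) (h0 : r0.val = 0) (c0 : cfg 0 = (q0, init n))
    (cs : ∀ i, M.step 0 (cfg i) = some (cfg (i + 1))) (a0 a1 a2 a3 a4 a5 a6 a7 : V) :
    Phi M ρ q0 r0 t (jn M cfg t e κ) a0 a1 a2 a3 a4 a5 a6 a7 := by
  have cs' : ∀ i, M.nxt (cfg i).1 (M.tst 0 (cfg i)) = some (cfg (i + 1)).1 ∧ (cfg (i + 1)).2 =
      app (M.eff (cfg i).1 (M.tst 0 (cfg i))) (M.reg (cfg i).1) (cfg i).2 := fun i => by
    obtain ⟨q, h1, h2⟩ := Option.map_eq_some_iff.1 (cs i)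
    rw [← h2]
    exact ⟨h1, rfl⟩
  have X : ∀ {q β}, sc t e true a0 a1 → st t e (.inl (q, β)) a3 a5 → κ a0 ≠ κ a3 →
      jn M cfg t e κ a0 a5 → ∃ i j, ht t e true i a0 ∧ ht t e true (i + 1) a1 ∧
        ht t e false j a3 ∧ κ a1 ≠ κ a3 ∧ (cfg i).1 = q ∧ M.tst 0 (cfg i) = β := by
    intro q β x y hk z
    obtain ⟨i, j, a, b, d⟩ := (H.cross x.choose_spec.1 y hk).1 z
    exact ⟨i, j, a, ⟨_, a, x⟩, b, H.sck x ▸ hk, d⟩
  refine ⟨fun c c' => H.T1, fun c x y z => ?_, fun c k k' x y z u v => ?_, fun s x y => ?_,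
    fun s x y z => ?_, fun s x y z => ?_, fun β x y z u v => ?_, fun r hr x y => ?_,
    fun a k x y z u v => ?_, fun q β k hq x y => ?_, fun q β q' β' hq x y z u v w k => ?_,
    fun q β r hq x y z u => ?_, fun q β hq x y z u v w => ?_, fun q β hq x y z u v => ?_,
    fun q β hq x y z u v w => ?_⟩
  · have z' := (H.jn_iff x y (by rintro k d ⟨rfl, h⟩; cases h) (by rintro k d ⟨rfl, h⟩; cases h)).1 z
    exact (H.phi a0 a1 a0 a0 a0 a0 a0 a0 (H.edge z').symm rfl rfl rfl rfl rfl rfl).t2 c x y z'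
  · have u' := (H.jn_iff x z (by simp) (by simp)).1 u
    have v' := (H.jn_iff y z (by simp) (by simp)).1 v
    exact (H.phi a0 a1 a2 a0 a0 a0 a0 a0 ((H.edge v').trans (H.edge u').symm) (H.edge u').symm
      rfl rfl rfl rfl rfl).u0 c k k' x y z u' v'
  · exact H.not_og (H.sc_jn y) (H.og_jn x)
  · have x' := H.lkk (H.lk_jn x)
    exact (H.loc a0 a1 a2 a3 a0 a0 a0 a0 ((H.lkk (H.lk_jn y)).trans x'.symm) x'.symm
      (H.sck (H.sc_jn z)) rfl rfl rfl rfl).u2 s x y z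
  · have x' := H.lkk (H.lk_jn x)
    exact (H.loc a0 a1 a2 a3 a0 a0 a0 a0 ((H.lkk (H.lk_jn y)).trans x'.symm) x'.symm
      (H.ogk (H.og_jn z)) rfl rfl rfl rfl).u3 s x y z
  · have x' := H.og_jn x
    have y' := H.og_jn y
    have z' := H.st_jn z
    have v' := H.st_jn v
    by_cases hk : κ a0 = κ a3
    · exact (H.loc a0 a1 a2 a3 a0 a5 a6 a0 ((H.ogk y').trans hk.symm) (H.ogk x') hk.symm rfl
        ((H.stk v').symm.trans hk.symm) ((H.stk z').symm.trans hk.symm) rfl).c1 β x y z u v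
    · rw [H.cross' (i := 0) (j := 0) ⟨_, x'⟩ ⟨_, y'⟩ z' hk] at u
      rw [H.cross' (i := 0) (j := 0) ⟨_, x'⟩ ⟨_, y'⟩ v' hk]
      simp only [col, hρ, c0] at u ⊢
      exact ⟨trivial, Bool.eq_iff_iff.2 (by rw [tst0, u])⟩
  · have x' := H.og_jn x
    have y' := H.st_jn y
    by_cases hk : κ a0 = κ a3
    · exact (H.loc a0 a0 a2 a3 a0 a5 a0 a0 rfl (H.ogk x') hk.symm rfl
        ((H.stk y').symm.trans hk.symm) rfl rfl).c2 r hr x y
    · rw [H.cross x'.2.1 y' hk]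
      rintro ⟨i, j, a, -, d⟩
      rw [H.ht_uniq a (j := 0) ⟨_, x'⟩] at d
      have : (r : ℕ) ≠ 0 := fun h => hr (Fin.ext (h.trans h0.symm))
      simp [col, c0, init, update_of_ne this] at d
  · have y' := H.sc_jn y
    have z' := H.st_jn z
    have u' := H.st_jn u
    by_cases hk : κ a0 = κ a3
    · have k4 := (H.sck y').symm.trans hk.symm
      exact (H.loc a0 a0 a0 a3 a4 a5 a6 a0 rfl rfl hk.symm k4 ((H.stk z').symm.trans hk.symm)
        ((H.stk u').symm.trans k4) rfl).c3 a k x y z u v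
    · obtain ⟨i, j, b, c, d⟩ := (H.cross x z' hk).1 v
      exact (H.cross x u' (H.sck y' ▸ hk)).2 ⟨i, j + 1, b, ⟨_, c, y'⟩, d⟩
  · have y' := H.st_jn y
    by_cases hk : κ a0 = κ a3
    · exact (H.loc a0 a0 a0 a3 a0 a5 a0 a0 rfl rfl hk.symm rfl
        ((H.stk y').symm.trans hk.symm) rfl rfl).c4 q β k hq x y
    · rw [H.cross x y' hk]
      rintro ⟨i, j, -, -, d1, d2⟩
      have := (cs' i).1
      rw [d1, d2] at this
      simp [hq] at this
  · have x' := H.sc_jn x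
    have y' := H.og_jn y
    have z' := H.st_jn z
    have v' := H.st_jn v
    have k' := H.st_jn k
    by_cases hk : κ a0 = κ a3
    · exact (H.loc a0 a1 a2 a3 a0 a5 a6 a7 (H.sck x').symm ((H.ogk y').trans hk.symm) hk.symm rfl
        ((H.stk z').symm.trans hk.symm) ((H.stk v').symm.trans hk.symm)
        ((H.stk k').symm.trans hk.symm)).c5 q β q' β' hq x y z u v w k
    · obtain ⟨i, j, -, b, -, d, rfl, rfl⟩ := X x' z' hk u
      rw [H.cross' (j := 0) b ⟨_, y'⟩ v' d] at w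
      rw [H.cross' (j := 0) b ⟨_, y'⟩ k' d]
      have e1 : (cfg (i + 1)).1 = q' := Option.some.inj ((cs' i).1.symm.trans hq)
      simp only [col, hρ] at w ⊢
      exact ⟨e1, Bool.eq_iff_iff.2 (by rw [tst0, w, e1])⟩
  · have x' := H.sc_jn x
    have y' := H.st_jn y
    have u' := H.st_jn u
    by_cases hk : κ a0 = κ a3
    · exact (H.loc a0 a1 a0 a3 a0 a5 a6 a0 (H.sck x').symm rfl hk.symm rfl
        ((H.stk y').symm.trans hk.symm) ((H.stk u').symm.trans hk.symm) rfl).c6 q β r hq x y z u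
    · obtain ⟨i, j, a, b, c, d, rfl, rfl⟩ := X x' y' hk z
      rw [H.cross' b c u' d, H.cross' a c u' hk]
      simp only [col, (cs' i).2]
      rcases hq with hq | hq
      · rw [hq]; rfl
      · have : (r : ℕ) ≠ M.reg (cfg i).1 := fun h => hq (Fin.ext (h.trans (hρ _).symm))
        rcases M.eff (cfg i).1 (M.tst 0 (cfg i)) with _ | _ | _ <;> simp [app, update_of_ne this]
  · have x' := H.sc_jn x
    have y' := H.st_jn y
    have u' := H.sc_jn u
    have v' := H.st_jn v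
    have w' := H.st_jn w
    by_cases hk : κ a0 = κ a3
    · have k4 := (H.sck u').symm.trans hk.symm
      exact (H.loc a0 a1 a0 a3 a4 a5 a6 a7 (H.sck x').symm rfl hk.symm k4
        ((H.stk y').symm.trans hk.symm) ((H.stk v').symm.trans hk.symm)
        ((H.stk w').symm.trans k4)).c7 q β hq x y z u v w
    · obtain ⟨i, j, a, b, c, d, rfl, rfl⟩ := X x' y' hk z
      rw [H.cross' (j := j + 1) b ⟨_, c, u'⟩ w' (H.sck u' ▸ d), H.cross' a c v' hk]
      simp only [col, (cs' i).2, hq, app, hρ, update_self]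
      omega
  · have x' := H.sc_jn x
    have y' := H.og_jn y
    have z' := H.st_jn z
    have v' := H.st_jn v
    by_cases hk : κ a0 = κ a3
    · exact (H.loc a0 a1 a2 a3 a0 a5 a6 a0 (H.sck x').symm ((H.ogk y').trans hk.symm) hk.symm rfl
        ((H.stk z').symm.trans hk.symm) ((H.stk v').symm.trans hk.symm) rfl).c8 q β hq x y z u v
    · obtain ⟨i, j, -, b, -, d, rfl, rfl⟩ := X x' z' hk u
      rw [H.cross' (j := 0) b ⟨_, y'⟩ v' d]
      simp [col, (cs' i).2, hq, app, hρ]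
  · have x' := H.sc_jn x
    have y' := H.st_jn y
    have u' := H.sc_jn u
    have v' := H.st_jn v
    have w' := H.st_jn w
    by_cases hk : κ a0 = κ a3
    · have k4 := (H.sck u').symm.trans hk.symm
      exact (H.loc a0 a1 a0 a3 a4 a5 a6 a7 (H.sck x').symm rfl hk.symm k4
        ((H.stk y').symm.trans hk.symm) ((H.stk v').symm.trans hk.symm)
        ((H.stk w').symm.trans k4)).c9 q β hq x y z u v w
    · obtain ⟨i, j, a, b, c, d, rfl, rfl⟩ := X x' y' hk z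
      rw [H.cross' b c v' d, H.cross' (j := j + 1) a ⟨_, c, u'⟩ w' (H.sck u' ▸ hk)]
      simp only [col, (cs' i).2, hq, app, hρ, update_self]
      omega

theorem joinI (h0 : r0.val = 0) (c0 : cfg 0 = (q0, init n)) (x o o' w : V) (v : ℕ → V) :
    PhiI r0 n t (jn M cfg t e κ) x o o' w v := by
  intro a b
  have a' := H.og_jn a
  have b' : ∀ j < n, sc t e false (v j) (v (j + 1)) := fun j hj => H.sc_jn (b j hj)
  have kv : ∀ j ≤ n, κ (v j) = κ (v 0) := by
    intro j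
    induction j with
    | zero => exact fun _ => rfl
    | succ j ih => exact fun hj => (H.sck (b' j hj)).symm.trans (ih (by omega))
  have L : κ x = κ (v 0) → ∀ o' w, κ o' = κ x → κ w = κ x →
      PhiI r0 n t (jn M cfg t e κ) x o o' w v := fun hk o' w k1 k2 =>
    PhiI.tr (g := id) (P := fun u => κ u = κ x) (fun _ _ _ h => h) H.loc_iff rfl (H.ogk a') k1 k2
      (fun j hj => (kv j hj).trans hk.symm) (fun _ _ => rfl)
      (H.phiI _ _ _ _ _ (H.ogk a') k1 k2 fun j hj => (kv j hj).trans hk.symm)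
  refine ⟨fun c => ?_, fun c j hj d => ?_⟩
  · have c' := H.st_jn c
    by_cases hk : κ x = κ (v 0)
    · exact (L hk x w rfl ((H.stk c').symm.trans ((kv n le_rfl).trans hk.symm)) a b).1 c
    · rw [H.cross a'.2.1 c' (kv n le_rfl ▸ hk)]
      rintro ⟨i, j, h1, h2, d⟩
      rw [H.ht_uniq h1 (j := 0) ⟨_, a'⟩] at d
      have : ∀ m ≤ n, ∀ j, ht t e false j (v m) → m ≤ j := by
        intro m
        induction m with
        | zero => exact fun _ _ _ => Nat.zero_le _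
        | succ m ih =>
          intro hm j hj
          obtain ⟨j', rfl, h⟩ := H.ht_back (b' m hm) hj
          have := ih (by omega) _ h
          omega
      have := this n le_rfl j h2
      simp only [col, c0, h0, init, update_self] at d
      omega
  · have c' := H.og_jn c
    have d' := H.st_jn d
    by_cases hk : κ x = κ (v 0)
    · exact (L hk o' w ((H.ogk c').trans hk.symm)
        ((H.stk d').symm.trans ((kv j hj.le).trans hk.symm)) a b).2 c j hj d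
    · have : ∀ m ≤ n, ht t e false m (v m) := by
        intro m
        induction m with
        | zero => exact fun _ => ⟨_, c'⟩
        | succ m ih => exact fun hm => ⟨_, ih (by omega), b' m hm⟩
      rw [H.cross' (i := 0) ⟨_, a'⟩ (this j hj.le) d' (kv j hj.le ▸ hk)]
      simpa [col, c0, h0, init] using hj

end Parts

end Pool.Agent.H.MP_451b27_lc
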