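import Pool.Agent.H.MP_451b27_lc.B

/-! Types defined by cliques; the graph level of the construction. -/

namespace Pool.Agent.H.MP_451b27_lc

open Pool.Agent.Lib.helper21.While Pool.Agent.Lib.helper21.Mach Function

variable {Q : Type} {K m : ℕ} {V V' : Type}

def Clq {S : ℕ} (G : SimpleGraph V) (f : Fin S → V) : Prop := ∀ a b, a ≠ b → G.Adj (f a) (f b)

def typ (en : Ty Q K ≃ Fin m) (G : SimpleGraph V) (c : Ty Q K) (v : V) : Prop :=
  ∃ f : Fin (2 * m + 3) → V, Clq G f ∧ ∀ a, G.Adj v (f a) ↔ a.val < (en c).val + 1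

def T0 (en : Ty Q K ≃ Fin m) (G : SimpleGraph V) : Prop :=
  ∀ f : Fin (2 * m + 3) → V, Clq G f → ∀ a c, ¬typ en G c (f a)

def Good0 (en : Ty Q K ≃ Fin m) (M : CM Q) (ρ : Q → Fin K) (q0 : Q) (r0 : Fin K)
    (G : SimpleGraph V) : Prop :=
  T0 en G ∧ ∀ a0 a1 a2 a3 a4 a5 a6 a7, Phi M ρ q0 r0 (typ en G) G.Adj a0 a1 a2 a3 a4 a5 a6 a7

def GoodI (en : Ty Q K ≃ Fin m) (r0 : Fin K) (n : ℕ) (G : SimpleGraph V) : Prop :=
  ∀ x o o' w v, PhiI r0 n (typ en G) G.Adj x o o' w v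

variable {en : Ty Q K ≃ Fin m} {M : CM Q} {ρ : Q → Fin K} {q0 : Q} {r0 : Fin K} {n : ℕ}
  {G : SimpleGraph V} {G' : SimpleGraph V'}

theorem typ_map {g : V → V'} (h : ∀ u v, G.Adj u v ↔ G'.Adj (g u) (g v)) {c v}
    (hv : typ en G c v) : typ en G' c (g v) := by
  obtain ⟨f, h1, h2⟩ := hv
  exact ⟨g ∘ f, fun a b hab => (h _ _).1 (h1 a b hab), fun a => (h _ _).symm.trans (h2 a)⟩

theorem Good0.pull {g : V → V'} (h : ∀ u v, G.Adj u v ↔ G'.Adj (g u) (g v))
    (H : Good0 en M ρ q0 r0 G') : Good0 en M ρ q0 r0 G :=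
  ⟨fun f hf a c hc => H.1 (g ∘ f) (fun a b hab => (h _ _).1 (hf a b hab)) a c (typ_map h hc),
    fun _ _ _ _ _ _ _ _ => Phi.tr (P := fun _ => True) (t := typ en G) (e := G.Adj)
      (t' := typ en G') (e' := G'.Adj) (g := g) (fun _ _ _ hc => typ_map h hc)
      (fun u v _ _ => h u v) trivial trivial trivial trivial trivial trivial trivial trivial
      (H.2 _ _ _ _ _ _ _ _)⟩

theorem GoodI.pull {g : V → V'} (h : ∀ u v, G.Adj u v ↔ G'.Adj (g u) (g v))
    (H : GoodI en r0 n G') : GoodI en r0 n G := fun _ _ _ _ v =>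
  PhiI.tr (P := fun _ => True) (v' := g ∘ v) (t := typ en G) (e := G.Adj) (t' := typ en G')
    (e' := G'.Adj) (g := g) (fun _ _ _ hc => typ_map h hc) (fun u v _ _ => h u v)
    trivial trivial trivial trivial (fun _ _ => trivial) (fun _ _ => rfl) (H _ _ _ _ _)

theorem small (en : Ty Q K ≃ Fin m) (G : SimpleGraph V) (l : List V) (hl : l ≠ []) :
    ∃ k ≤ l.length * (1 + m * (2 * m + 3)), ∃ (f : Fin k → V) (g : V → Fin k), Injective f ∧
      (∀ c u, u ∈ l → typ en G c u → typ en (G.comap f) c (g u)) ∧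
      ∀ u v, u ∈ l → v ∈ l → (G.Adj u v ↔ (G.comap f).Adj (g u) (g v)) := by
  classical
  let wit : V → Fin m → Fin (2 * m + 3) → V := fun u c =>
    if h : typ en G (en.symm c) u then h.choose else fun _ => u
  let s : Finset V := l.toFinset.biUnion fun u =>
    insert u (Finset.univ.image fun z : Fin m × Fin (2 * m + 3) => wit u z.1 z.2)
  have h1 : ∀ u ∈ l, u ∈ s := fun u hu =>
    Finset.mem_biUnion.2 ⟨u, List.mem_toFinset.2 hu, Finset.mem_insert_self _ _⟩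
  have h2 : ∀ u ∈ l, ∀ c a, wit u c a ∈ s := fun u hu c a =>
    Finset.mem_biUnion.2 ⟨u, List.mem_toFinset.2 hu,
      Finset.mem_insert_of_mem (Finset.mem_image.2 ⟨(c, a), Finset.mem_univ _, rfl⟩)⟩
  obtain ⟨u0, hu0⟩ := List.exists_mem_of_ne_nil l hl
  let f : Fin s.card → V := fun i => (s.equivFin.symm i).1
  let g : V → Fin s.card := fun u => if h : u ∈ s then s.equivFin ⟨u, h⟩ else s.equivFin ⟨u0, h1 _ hu0⟩
  have fg : ∀ u ∈ s, f (g u) = u := fun u hu => by simp [f, g, hu]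
  refine ⟨s.card, ?_, f, g, Subtype.val_injective.comp s.equivFin.symm.injective,
    fun c u hu hc => ?_, fun u v hu hv => ?_⟩
  · refine (Finset.card_biUnion_le_card_mul _ _ (1 + m * (2 * m + 3)) fun u _ => ?_).trans
      (Nat.mul_le_mul_right _ (List.toFinset_card_le l))
    refine (Finset.card_insert_le _ _).trans ?_
    have := Finset.card_image_le (s := Finset.univ)
      (f := fun z : Fin m × Fin (2 * m + 3) => wit u z.1 z.2)
    simp only [Finset.card_univ, Fintype.card_prod, Fintype.card_fin] at this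
    omega
  · have hc' : typ en G (en.symm (en c)) u := by simpa using hc
    have e : wit u (en c) = hc'.choose := dif_pos hc'
    obtain ⟨a1, a2⟩ := hc'.choose_spec
    rw [← e] at a1 a2
    refine ⟨fun a => g (wit u (en c) a), fun a b hab => ?_, fun a => ?_⟩
    · simp only [SimpleGraph.comap_adj, fg _ (h2 u hu _ _)]
      exact a1 a b hab
    · simp only [SimpleGraph.comap_adj, fg _ (h2 u hu _ _), fg _ (h1 u hu)]
      simpa using a2 a
  · simp only [SimpleGraph.comap_adj, fg _ (h1 u hu), fg _ (h1 v hv)]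

theorem Good0.loc (H : ∀ k ≤ (2 * m + 11) * (1 + m * (2 * m + 3)), ∀ f : Fin k → V, Injective f →
    Good0 en M ρ q0 r0 (G.comap f)) : Good0 en M ρ q0 r0 G := by
  refine ⟨fun f hf a c hc => ?_, fun a0 a1 a2 a3 a4 a5 a6 a7 => ?_⟩
  · obtain ⟨k, hk, f', g, h1, h2, h3⟩ := small en G (List.ofFn f) (by simp)
    have mem : ∀ a, f a ∈ List.ofFn f := fun a => List.mem_ofFn.2 ⟨a, rfl⟩
    refine (H k (hk.trans (Nat.mul_le_mul_right _ (by simp))) f' h1).1 (g ∘ f)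
      (fun a b hab => (h3 _ _ (mem a) (mem b)).1 (hf a b hab)) a c (h2 _ _ (mem a) hc)
  · obtain ⟨k, hk, f', g, h1, h2, h3⟩ := small en G [a0, a1, a2, a3, a4, a5, a6, a7] (by simp)
    exact Phi.tr h2 h3 (by simp) (by simp) (by simp) (by simp) (by simp) (by simp) (by simp)
      (by simp) ((H k (hk.trans (Nat.mul_le_mul_right _ (by simp))) f' h1).2 _ _ _ _ _ _ _ _)

theorem GoodI.loc (H : ∀ k ≤ (n + 5) * (1 + m * (2 * m + 3)), ∀ f : Fin k → V, Injective f →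
    GoodI en r0 n (G.comap f)) : GoodI en r0 n G := by
  intro x o o' w v
  obtain ⟨k, hk, f', g, h1, h2, h3⟩ :=
    small en G (x :: o :: o' :: w :: (List.range (n + 1)).map v) (by simp)
  exact PhiI.tr (v' := g ∘ v) h2 h3 (by simp) (by simp) (by simp) (by simp)
    (fun j hj => by
      simp only [List.mem_cons, List.mem_map, List.mem_range]
      exact Or.inr (Or.inr (Or.inr (Or.inr ⟨j, by omega, rfl⟩)))) (fun _ _ => rfl)
    (H k (hk.trans (Nat.mul_le_mul_right _ (by simp))) f' h1 _ _ _ _ _)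

section join

variable {I : Type} {κ : V → I} {cfg : ℕ → Q × St}

def jG (_H : Parts M ρ q0 r0 n (typ en G) G.Adj κ) (cfg : ℕ → Q × St) : SimpleGraph V where
  Adj := jn M cfg (typ en G) G.Adj κ
  symm := ⟨fun _ _ h => h.imp G.adj_symm fun h => ⟨h.1.symm, h.2.symm⟩⟩
  loopless := ⟨fun _ h => h.elim G.irrefl fun h => h.1 rfl⟩

theorem jn_ty {u v : V} (h : jn M cfg (typ en G) G.Adj κ u v) (h' : ¬G.Adj u v) :
    (∃ c, typ en G c u) ∧ ∃ c, typ en G c v := by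
  rcases h with h | ⟨-, h | h⟩
  · exact (h' h).elim
  · obtain ⟨⟨_, a⟩, _, b⟩ := cr_ty h
    exact ⟨⟨_, a⟩, _, b⟩
  · obtain ⟨⟨_, a⟩, _, b⟩ := cr_ty h
    exact ⟨⟨_, b⟩, _, a⟩

theorem clq_join (H : Parts M ρ q0 r0 n (typ en G) G.Adj κ) {f : Fin (2 * m + 3) → V}
    (hf : Clq (jG H cfg) f) : Clq G f := by
  by_contra hh
  simp only [Clq, not_forall] at hh
  obtain ⟨a, b, hab, h⟩ := hh
  have hk : κ (f a) ≠ κ (f b) := ((hf a b hab).resolve_left h).1
  have ty : ∀ d, ∃ c, typ en G c (f d) := by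
    intro d
    by_cases e : κ (f d) = κ (f a)
    · have : κ (f d) ≠ κ (f b) := e ▸ hk
      exact (jn_ty (hf d b fun e' => this (e' ▸ rfl)) fun h => this (H.edge h)).1
    · exact (jn_ty (hf d a fun e' => e (e' ▸ rfl)) fun h => e (H.edge h)).1
  choose τ hτ using ty
  obtain ⟨d, d', h1, h2⟩ := Fintype.exists_ne_map_eq_of_card_lt (en ∘ τ) (by simp; omega)
  have h3 : τ d = τ d' := en.injective h2
  have h4 := hτ d'
  rw [← h3] at h4
  have z := (H.jn_iff (hτ d) h4 (by rintro k c ⟨h, h'⟩; rw [h] at h'; cases h')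
    (by rintro k c ⟨h, h'⟩; rw [h] at h'; cases h')).1 (hf d d' h1)
  exact (H.phi (f d) (f d') _ _ _ _ _ _ (H.edge z).symm rfl rfl rfl rfl rfl rfl).t2 _ (hτ d) h4 z

theorem typ_join (H : Parts M ρ q0 r0 n (typ en G) G.Adj κ) (h0 : T0 en G) :
    typ en (jG H cfg) = typ en G := by
  have key : ∀ f : Fin (2 * m + 3) → V, Clq G f → ∀ v a, (jG H cfg).Adj v (f a) ↔ G.Adj v (f a) :=
    fun f hf v a => ⟨fun h => by_contra fun h' =>
      (jn_ty h h').2.elim fun c hc => h0 f hf a c hc, Or.inl⟩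
  funext c v
  refine propext ⟨fun ⟨f, h1, h2⟩ => ⟨f, clq_join H h1, fun a => ?_⟩,
    fun ⟨f, h1, h2⟩ => ⟨f, fun a b hab => Or.inl (h1 a b hab), fun a => ?_⟩⟩
  · rw [← key f (clq_join H h1), h2]
  · rw [key f h1, h2]

end join

theorem universal (hρ : ∀ q, (ρ q).val = M.reg q) (h0 : r0.val = 0)
    (hn : ¬Halts (M.step 0) (q0, init n)) : ∃ (W : Type) (U : SimpleGraph W),
      Good0 en M ρ q0 r0 U ∧ GoodI en r0 n U ∧ ∀ k (E : SimpleGraph (Fin k)),
        Good0 en M ρ q0 r0 E → GoodI en r0 n E →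
        ∃ f : Fin k → W, Injective f ∧ ∀ u v, E.Adj u v ↔ U.Adj (f u) (f v) := by
  have st : ∀ c : {c // ¬Halts (M.step 0) c}, ∃ c' : {c // ¬Halts (M.step 0) c},
      M.step 0 c.1 = some c'.1 := by
    rintro ⟨c, hc⟩
    rcases h : M.step 0 c with _ | c'
    · exact (hc (.stop h)).elim
    · exact ⟨⟨c', fun h' => hc (.go h h')⟩, rfl⟩
  choose nx hnx using st
  let cfg : ℕ → Q × St := fun i => (nx^[i] ⟨_, hn⟩).1
  have cs : ∀ i, M.step 0 (cfg i) = some (cfg (i + 1)) := fun i => by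
    simp only [cfg, iterate_succ_apply']
    exact hnx _
  let I := {E : SimpleGraph ℕ // Good0 en M ρ q0 r0 E ∧ GoodI en r0 n E}
  let G : SimpleGraph (I × ℕ) :=
    { Adj := fun u v => u.1 = v.1 ∧ u.1.1.Adj u.2 v.2
      symm := ⟨fun u v h => ⟨h.1.symm, h.1 ▸ h.2.symm⟩⟩
      loopless := ⟨fun u h => u.1.1.irrefl h.2⟩ }
  have e2 : ∀ (i : I) (u v : I × ℕ), u.1 = i → v.1 = i → (G.Adj u v ↔ i.1.Adj u.2 v.2) := by
    rintro i u v rfl hv
    exact ⟨fun h => h.2, fun h => ⟨hv.symm, h⟩⟩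
  have ck : ∀ f : Fin (2 * m + 3) → I × ℕ, Clq G f → ∀ a, (f a).1 = (f 0).1 := fun f hf a => by
    by_cases h : a = 0
    · rw [h]
    · exact (hf a 0 h).1
  have e1 : ∀ (i : I) c (u : I × ℕ), u.1 = i → typ en G c u → typ en i.1 c u.2 := by
    rintro i c u hu ⟨f, h1, h2⟩
    have k0 : (f 0).1 = i := ((h2 0).2 (by simp)).1.symm.trans hu
    have k : ∀ a, (f a).1 = i := fun a => (ck f h1 a).trans k0
    exact ⟨fun a => (f a).2, fun a b hab => (e2 i _ _ (k a) (k b)).1 (h1 a b hab),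
      fun a => (e2 i _ _ hu (k a)).symm.trans (h2 a)⟩
  have H : Parts M ρ q0 r0 n (typ en G) G.Adj Prod.fst :=
    ⟨fun h => h.1, fun a0 _ _ _ _ _ _ _ p1 p2 p3 p4 p5 p6 p7 =>
      Phi.tr (g := Prod.snd) (e1 a0.1) (e2 a0.1) rfl p1 p2 p3 p4 p5 p6 p7
        (a0.1.2.1.2 _ _ _ _ _ _ _ _),
      fun x _ _ _ v p1 p2 p3 p4 => PhiI.tr (g := Prod.snd) (v' := Prod.snd ∘ v) (e1 x.1) (e2 x.1)
        rfl p1 p2 p3 p4 (fun _ _ => rfl) (x.1.2.2 _ _ _ _ _)⟩
  have hT : T0 en G := fun f hf a c hc => (f 0).1.2.1.1 (fun a => (f a).2)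
    (fun a b hab => (e2 _ _ _ (ck f hf a) (ck f hf b)).1 (hf a b hab)) a c
    (e1 _ _ _ (ck f hf a) hc)
  refine ⟨_, jG H cfg, ⟨fun f hf a c => ?_, ?_⟩, ?_, fun k E h1 h2 => ?_⟩
  · rw [typ_join H hT]
    exact hT f (clq_join H hf) a c
  · rw [typ_join H hT]
    exact H.join hρ h0 rfl cs
  · rw [GoodI, typ_join H hT]
    exact H.joinI h0 rfl
  · rcases Nat.eq_zero_or_pos k with rfl | hk
    · exact ⟨Fin.elim0, fun a => a.elim0, fun a => a.elim0⟩
    let φ : ℕ → Fin k := fun j => ⟨j % k, Nat.mod_lt _ hk⟩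
    let i : I := ⟨E.comap φ, Good0.pull (g := φ) (fun _ _ => Iff.rfl) h1,
      GoodI.pull (g := φ) (fun _ _ => Iff.rfl) h2⟩
    refine ⟨fun a => (i, a.val), fun a b h => Fin.ext (congrArg Prod.snd h), fun u v => ?_⟩
    refine Iff.trans ?_ (H.loc_iff (cfg := cfg) (i, u.val) (i, v.val) rfl rfl).symm
    rw [e2 i _ _ rfl rfl]
    simp [i, φ, Nat.mod_eq_of_lt]

end Pool.Agent.H.MP_451b27_lc
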