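import Pool.Agent.H.MP_451b27_lc.C

/-! The canonical chains; halting runs destroy joint embedding. -/

namespace Pool.Agent.H.MP_451b27_lc

open Pool.Agent.Lib.helper21.While Pool.Agent.Lib.helper21.Mach Function

variable {Q : Type} {K m : ℕ}

abbrev Bs (Q : Type) (K : ℕ) : Type := Option (ℕ × Option (Col Q K))

def tau (s : Bool) : Bs Q K → Ty Q K
  | none => .inr (.inl s)
  | some (j, none) => .inl (s, (j : ZMod 3))
  | some (_, some c) => .inr (.inr c)

def dB : Bs Q K → Bs Q K → Prop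
  | none, some (j, none) => j = 0
  | some (i, none), some (j, none) => j = i + 1
  | some (i, none), some (j, some _) => j = i
  | _, _ => False

theorem z1 (k : ZMod 3) : k ≠ k + 1 := by revert k; decide
theorem z2 (k : ZMod 3) : k ≠ k + 1 + 1 := by revert k; decide

theorem tau_ne (s : Bool) {b b' : Bs Q K} (h : dB b b') : tau s b ≠ tau s b' := by
  rcases b with _ | ⟨i, _ | c⟩ <;> rcases b' with _ | ⟨j, _ | d⟩ <;> simp only [dB] at h <;>
    simp [tau, h, z1]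

theorem tau_hub {s s' : Bool} {k} {b : Bs Q K} (h : tau s b = .inl (s', k)) :
    s = s' ∧ ∃ j : ℕ, b = some (j, none) ∧ (j : ZMod 3) = k := by
  rcases b with _ | ⟨i, _ | c⟩ <;> simp only [tau, reduceCtorEq, Sum.inl.injEq, Prod.mk.injEq] at h
  exact ⟨h.1, i, rfl, h.2⟩

theorem tau_sat {s : Bool} {c} {b : Bs Q K} (h : tau s b = .inr (.inr c)) :
    ∃ j : ℕ, b = some (j, some c) := by
  rcases b with _ | ⟨i, _ | d⟩ <;> simp only [tau, reduceCtorEq, Sum.inr.injEq] at h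
  exact ⟨i, by rw [h]⟩

theorem tau_o {s s' : Bool} {b : Bs Q K} (h : tau s b = .inr (.inl s')) : b = none := by
  rcases b with _ | ⟨i, _ | d⟩ <;> simp only [tau, reduceCtorEq, Sum.inr.injEq] at h
  rfl

variable (en : Ty Q K ≃ Fin m) (s : Bool)

def cA : Bs Q K ⊕ Fin (2 * m + 3) → Bs Q K ⊕ Fin (2 * m + 3) → Prop
  | .inl b, .inl b' => dB b b' ∨ dB b' b
  | .inl b, .inr a => a.val < (en (tau s b)).val + 1
  | .inr a, .inl b => a.val < (en (tau s b)).val + 1
  | .inr a, .inr a' => a ≠ a'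

def cG : SimpleGraph (Bs Q K ⊕ Fin (2 * m + 3)) where
  Adj := cA en s
  symm := ⟨by
    rintro (a | a) (b | b) h
    exacts [h.symm, h, h, Ne.symm h]⟩
  loopless := ⟨by
    rintro (a | a) h
    exacts [h.elim (fun h => tau_ne s h rfl) fun h => tau_ne s h rfl, h rfl]⟩

variable {en s}

theorem clq_bij {f : Fin (2 * m + 3) → _} (hf : Clq (cG en s) f) :
    ∃ σ : Fin (2 * m + 3) ≃ Fin (2 * m + 3), ∀ a, f a = .inr (σ a) := by
  have A : ∀ a, ∃ a', f a = .inr a' := by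
    intro a0
    rcases h0 : f a0 with b0 | a'
    swap
    · exact ⟨_, rfl⟩
    exfalso
    let φ : Bs Q K ⊕ Fin (2 * m + 3) → ℕ := Sum.elim (fun b => (en (tau s b)).val) fun a => m + a
    have := Finset.card_le_card_of_injOn (s := Finset.univ) (t := Finset.range (2 * m)) (φ ∘ f)
      (fun a _ => ?_) (fun a _ b _ hab => ?_)
    · simp at this
    · simp only [Finset.coe_range, Set.mem_Iio, comp_apply]
      rcases h : f a with b | a'
      · have := (en (tau s b)).2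
        simp only [φ, Sum.elim_inl]
        omega
      · have h1 := hf a0 a (by rintro rfl; rw [h0] at h; cases h)
        rw [h0, h] at h1
        have h2 : a'.val < (en (tau s b0)).val + 1 := h1
        have := (en (tau s b0)).2
        simp only [φ, Sum.elim_inr]
        omega
    · by_contra hne
      have h1 := hf a b hne
      simp only [comp_apply] at hab
      rcases ha : f a with x | x <;> rcases hb : f b with y | y <;> rw [ha, hb] at h1 hab <;>
        simp only [φ, Sum.elim_inl, Sum.elim_inr] at hab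
      · have e := en.injective (Fin.ext hab)
        exact h1.elim (fun h => tau_ne s h e) fun h => tau_ne s h e.symm
      · have := (en (tau s x)).2
        omega
      · have := (en (tau s y)).2
        omega
      · exact h1 (Fin.ext (by omega))
  choose σ hσ using A
  have : Injective σ := fun a b hab => by
    by_contra hne
    have h1 := hf a b hne
    rw [hσ, hσ] at h1
    exact h1 hab
  exact ⟨Equiv.ofBijective σ (Finite.injective_iff_bijective.1 this), hσ⟩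

theorem typ_inl {c b} : typ en (cG en s) c (.inl b) ↔ tau s b = c := by
  refine ⟨fun ⟨f, h1, h2⟩ => ?_, fun h => ⟨.inr, fun a b hab => hab, fun a => h ▸ Iff.rfl⟩⟩
  obtain ⟨σ, hσ⟩ := clq_bij h1
  have e := Fintype.card_congr (σ.subtypeEquiv (p := fun a => a.val < (en c).val + 1)
    (q := fun a => a.val < (en (tau s b)).val + 1) fun a => by rw [← h2, hσ]; rfl)
  have := (en c).2
  have := (en (tau s b)).2
  rw [Fintype.card_fin_lt_of_le (by omega), Fintype.card_fin_lt_of_le (by omega)] at e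
  exact en.injective (Fin.ext (by omega))

theorem typ_inr {c a} : ¬typ en (cG en s) c (.inr a) := by
  rintro ⟨f, h1, h2⟩
  obtain ⟨σ, hσ⟩ := clq_bij h1
  have := (en c).2
  have k : ∀ b : Fin (2 * m + 3), m ≤ b.val → a = σ b := fun b hb => by
    by_contra hne
    have := (h2 b).1 (by rw [hσ]; exact hne)
    omega
  have := σ.injective ((k ⟨2 * m + 1, by omega⟩ (by simp; omega)).symm.trans
    (k ⟨2 * m + 2, by omega⟩ (by simp; omega)))
  simp at this

theorem typ_iff {c v} (h : typ en (cG en s) c v) : ∃ b, v = .inl b ∧ tau s b = c := by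
  rcases v with b | a
  · exact ⟨b, rfl, typ_inl.1 h⟩
  · exact (typ_inr h).elim

theorem c_hub {s' k v} (h : typ en (cG en s) (.inl (s', k)) v) :
    s = s' ∧ ∃ j : ℕ, v = .inl (some (j, none)) ∧ (j : ZMod 3) = k := by
  obtain ⟨b, rfl, h'⟩ := typ_iff h
  obtain ⟨h1, j, rfl, h2⟩ := tau_hub h'
  exact ⟨h1, j, rfl, h2⟩

theorem c_sc {s' a b} (h : sc (typ en (cG en s)) (cG en s).Adj s' a b) :
    s = s' ∧ ∃ j : ℕ, a = .inl (some (j, none)) ∧ b = .inl (some (j + 1, none)) := by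
  obtain ⟨k, h1, h2, h3⟩ := h
  obtain ⟨e, i, rfl, hi⟩ := c_hub h1
  obtain ⟨-, j, rfl, hj⟩ := c_hub h2
  refine ⟨e, i, rfl, ?_⟩
  rcases h3 with h | h
  · rw [show j = i + 1 from h]
  · rw [show i = j + 1 from h] at hi
    rw [← hi] at hj
    exact (z2 _ (by simpa using hj)).elim

theorem c_st {c a b} (h : st (typ en (cG en s)) (cG en s).Adj c a b) :
    s = false ∧ ∃ j : ℕ, a = .inl (some (j, none)) ∧ b = .inl (some (j, some c)) := by
  obtain ⟨⟨k, h1⟩, h2, h3⟩ := h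
  obtain ⟨e, i, rfl, hi⟩ := c_hub h1
  obtain ⟨b, rfl, h4⟩ := typ_iff h2
  obtain ⟨j, rfl⟩ := tau_sat h4
  refine ⟨e, i, rfl, ?_⟩
  rcases h3 with h | h
  · rw [show j = i from h]
  · exact h.elim

theorem c_og {s' o a} (h : og (typ en (cG en s)) (cG en s).Adj s' o a) :
    s = s' ∧ a = .inl (some (0, none)) := by
  obtain ⟨h1, h2, h3⟩ := h
  obtain ⟨e, i, rfl, hi⟩ := c_hub h2
  obtain ⟨b, rfl, h4⟩ := typ_iff h1
  obtain rfl := tau_o h4
  refine ⟨e, ?_⟩
  rcases h3 with h | h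
  · rw [show i = 0 from h]
  · exact h.elim

theorem c_lk {s' a a' b} (h : lk (typ en (cG en s)) (cG en s).Adj s' a b)
    (h' : lk (typ en (cG en s)) (cG en s).Adj s' a' b) : a = a' := by
  rcases h with h | ⟨-, c, h⟩ <;> rcases h' with h' | ⟨-, c', h'⟩
  · obtain ⟨-, i, rfl, rfl⟩ := c_sc h
    obtain ⟨-, j, rfl, e⟩ := c_sc h'
    simpa using e
  · obtain ⟨-, i, rfl, rfl⟩ := c_sc h
    obtain ⟨-, j, rfl, e⟩ := c_st h'
    simp at e
  · obtain ⟨-, i, rfl, rfl⟩ := c_st h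
    obtain ⟨-, j, rfl, e⟩ := c_sc h'
    simp at e
  · obtain ⟨-, i, rfl, rfl⟩ := c_st h
    obtain ⟨-, j, rfl, e⟩ := c_st h'
    simp only [Sum.inl.injEq, Option.some.injEq, Prod.mk.injEq] at e
    rw [e.1]

theorem c_good0 {M : CM Q} {ρ : Q → Fin K} {q0 : Q} {r0 : Fin K} :
    Good0 en M ρ q0 r0 (cG en s) := by
  refine ⟨fun f hf a c => ?_, fun a0 a1 a2 a3 a4 a5 a6 a7 => ?_⟩
  · obtain ⟨σ, hσ⟩ := clq_bij hf
    rw [hσ]
    exact typ_inr
  have F : ∀ {P : Prop}, s = true → s = false → P := fun h h' => by rw [h] at h'; cases h'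
  refine ⟨fun c c' x y => ?_, fun c x y z => ?_, fun c k k' x y z u v => ?_, fun s x y => ?_,
    fun s x y z => c_lk x y ▸ z.choose_spec.2.2, fun s x y z => c_lk x y ▸ z.2.2,
    fun β x _ z => F (c_og x).1 (c_st z).1, fun r hr x y => F (c_og x).1 (c_st y).1,
    fun a k x _ z => F (c_hub x).1 (c_st z).1, fun q β k hq x y => F (c_hub x).1 (c_st y).1,
    fun q β q' β' hq x _ z => F (c_sc x).1 (c_st z).1,
    fun q β r hq x y => F (c_sc x).1 (c_st y).1, fun q β hq x y => F (c_sc x).1 (c_st y).1,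
    fun q β hq x _ z => F (c_sc x).1 (c_st z).1, fun q β hq x y => F (c_sc x).1 (c_st y).1⟩
  · obtain ⟨b, rfl, h⟩ := typ_iff x
    exact h.symm.trans (typ_inl.1 y)
  · obtain ⟨b, rfl, h⟩ := typ_iff x
    obtain ⟨b', rfl, h'⟩ := typ_iff y
    exact z.elim (fun g => tau_ne s g (h.trans h'.symm)) fun g => tau_ne s g (h'.trans h.symm)
  · have e := c_lk (s' := false) (Or.inr ⟨rfl, c, ⟨_, x⟩, z, u⟩) (Or.inr ⟨rfl, c, ⟨_, y⟩, z, v⟩)
    obtain ⟨-, i, rfl, rfl⟩ := c_hub x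
    obtain ⟨-, j, rfl, rfl⟩ := c_hub y
    simp only [Sum.inl.injEq, Option.some.injEq, Prod.mk.injEq] at e
    rw [e.1]
  · obtain ⟨-, rfl⟩ := c_og x
    obtain ⟨-, j, -, e⟩ := c_sc y
    simp at e

theorem c_goodI {r0 : Fin K} {n : ℕ} : GoodI en r0 n (cG en s) := fun _ _ _ _ _ x _ =>
  ⟨fun y => Bool.noConfusion ((c_og x).1.symm.trans (c_st y).1),
    fun _ _ _ y => Bool.noConfusion ((c_og x).1.symm.trans (c_st y).1)⟩

theorem mk_sc (j : ℕ) : sc (typ en (cG en s)) (cG en s).Adj s (.inl (some (j, none)))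
    (.inl (some (j + 1, none))) :=
  ⟨j, typ_inl.2 rfl, typ_inl.2 (by simp [tau]), Or.inl rfl⟩

theorem mk_st (j : ℕ) (c : Col Q K) : st (typ en (cG en false)) (cG en false).Adj c
    (.inl (some (j, none))) (.inl (some (j, some c))) :=
  ⟨⟨j, typ_inl.2 rfl⟩, typ_inl.2 rfl, Or.inl rfl⟩

theorem mk_og : og (typ en (cG en s)) (cG en s).Adj s (.inl none) (.inl (some (0, none))) :=
  ⟨typ_inl.2 rfl, typ_inl.2 (by simp [tau]), Or.inl rfl⟩

theorem no_jep [Finite Q] {M : CM Q} {ρ : Q → Fin K} {q0 : Q} {r0 : Fin K} {n : ℕ}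
    (hρ : ∀ q, (ρ q).val = M.reg q) (h0 : r0.val = 0) (hn : Halts (M.step 0) (q0, init n)) :
    ∃ (k1 k2 : ℕ) (E1 : SimpleGraph (Fin k1)) (E2 : SimpleGraph (Fin k2)),
      Good0 en M ρ q0 r0 E1 ∧ GoodI en r0 n E1 ∧ Good0 en M ρ q0 r0 E2 ∧ GoodI en r0 n E2 ∧
      ∀ (V : Type) (E : SimpleGraph V) (g1 : Fin k1 → V) (g2 : Fin k2 → V),
        (∀ u v, E1.Adj u v ↔ E.Adj (g1 u) (g1 v)) → (∀ u v, E2.Adj u v ↔ E.Adj (g2 u) (g2 v)) →
        Good0 en M ρ q0 r0 E → ¬GoodI en r0 n E := by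
  obtain ⟨N, hN⟩ := no_halt (ρ := ρ) (q0 := q0) (r0 := r0) hρ hn
  let S : Set (Bs Q K) := insert none (some '' (Set.Iic (N + n + 1) ×ˢ Set.univ))
  have hS : S.Finite := (((Set.finite_Iic _).prod Set.finite_univ).image _).insert _
  let l : List (Bs Q K ⊕ Fin (2 * m + 3)) := hS.toFinset.toList.map .inl
  have ml : ∀ b ∈ S, Sum.inl b ∈ l := fun b hb => List.mem_map.2 ⟨b, by simpa using hb, rfl⟩
  have m0 : Sum.inl none ∈ l := ml _ (Set.mem_insert _ _)
  have m1 : ∀ j ≤ N + n + 1, ∀ c, Sum.inl (some (j, c)) ∈ l := fun j hj c =>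
    ml _ (Set.mem_insert_of_mem _ ⟨(j, c), ⟨hj, trivial⟩, rfl⟩)
  obtain ⟨k1, -, f1, p1, -, a1, b1⟩ := small en (cG en true) l (List.ne_nil_of_mem m0)
  obtain ⟨k2, -, f2, p2, -, a2, b2⟩ := small en (cG en false) l (List.ne_nil_of_mem m0)
  refine ⟨k1, k2, (cG en true).comap f1, (cG en false).comap f2,
    Good0.pull (g := f1) (fun _ _ => Iff.rfl) c_good0,
    GoodI.pull (g := f1) (fun _ _ => Iff.rfl) c_goodI,
    Good0.pull (g := f2) (fun _ _ => Iff.rfl) c_good0,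
    GoodI.pull (g := f2) (fun _ _ => Iff.rfl) c_goodI, fun V E g1 g2 e1 e2 H HI => ?_⟩
  have A1 : ∀ c u, u ∈ l → typ en (cG en true) c u → typ en E c ((g1 ∘ p1) u) :=
    fun c u hu h => typ_map e1 (a1 c u hu h)
  have A2 : ∀ c u, u ∈ l → typ en (cG en false) c u → typ en E c ((g2 ∘ p2) u) :=
    fun c u hu h => typ_map e2 (a2 c u hu h)
  have B1 : ∀ u v, u ∈ l → v ∈ l → ((cG en true).Adj u v ↔ E.Adj ((g1 ∘ p1) u) ((g1 ∘ p1) v)) :=
    fun u v hu hv => (b1 u v hu hv).trans (e1 _ _)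
  have B2 : ∀ u v, u ∈ l → v ∈ l → ((cG en false).Adj u v ↔ E.Adj ((g2 ∘ p2) u) ((g2 ∘ p2) v)) :=
    fun u v hu hv => (b2 u v hu hv).trans (e2 _ _)
  have hy : ∀ j < N + n, sc (typ en E) E.Adj false ((g2 ∘ p2) (.inl (some (j, none))))
      ((g2 ∘ p2) (.inl (some (j + 1, none)))) := fun j hj =>
    sc_tr A2 B2 (m1 _ (by omega) _) (m1 _ (by omega) _) (mk_sc j)
  have hw : ∀ j ≤ N + n, ∀ c, st (typ en E) E.Adj c ((g2 ∘ p2) (.inl (some (j, none))))
      ((g2 ∘ p2) (.inl (some (j, some c)))) := fun j hj c =>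
    st_tr A2 B2 (m1 _ (by omega) _) (m1 _ (by omega) _) (mk_st j c)
  have ho := og_tr A2 B2 m0 (m1 0 (by omega) _) mk_og
  have R := rep_init hρ h0 H.2 HI (y := fun j => (g2 ∘ p2) (.inl (some (j, none))))
    (w := fun j c => (g2 ∘ p2) (.inl (some (j, some c)))) (Nat.le_add_left n N)
    (og_tr A1 B1 m0 (m1 0 (by omega) _) mk_og) hy hw ho
  exact hN V _ _ H.2 (fun j => (g1 ∘ p1) (.inl (some (j, none))))
    (fun j => (g2 ∘ p2) (.inl (some (j, none)))) _ _
    (fun j hj => sc_tr A1 B1 (m1 _ (by omega) _) (m1 _ (by omega) _) (mk_sc j))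
    (fun j hj => hy j (by omega)) (fun j hj => hw j (by omega)) ho
    ⟨fun j hj => R.1 j (by omega), R.2⟩

end Pool.Agent.H.MP_451b27_lc
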